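import Pool.Agent.H73.LB.Typ
import Pool.Agent.H91.LB.DefE

/-!
# [H91 LB] One event has probability `≥ a exp (- b / τ ^ 2) d ^ (-3)` (helper73)
-/

set_option autoImplicit false

open Finset MeasureTheory

namespace Pool.Agent.H73.LB

open Pool.H70.SF Pool.Agent.H73.ES Pool.H26.SF Pool.Agent.H41.RF Pool.Agent.H91.LB

private theorem upd_closed {c : Bool × ℕ → Set ℂ} (hc : ∀ q, IsClosed (c q)) (q0 : Bool × ℕ)
    (z0 : ℂ) (r : ℝ) : ∀ q, IsClosed (Function.update c q0 (Metric.closedBall z0 r) q) := by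
  intro q
  by_cases h : q = q0
  · rw [h, Function.update_self]
    exact Metric.isClosed_closedBall
  · rw [Function.update_of_ne h]
    exact hc q

private theorem chn {x y z : ℝ} {m m' : ENNReal} (h : ENNReal.ofReal x * m ≤ m') (hy : y ≤ x)
    (hy0 : 0 ≤ y) (hm : ENNReal.ofReal z ≤ m) : ENNReal.ofReal (y * z) ≤ m' := by
  refine le_trans ?_ h
  rw [ENNReal.ofReal_mul hy0]
  exact mul_le_mul' (ENNReal.ofReal_le_ofReal hy) hm

private theorem fac {x y a b τ : ℝ} (hx : 0 ≤ x) (hxy : x ≤ y) (hτ : 0 < τ) (hab : b ≤ a) :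
    x ^ 2 * Real.exp (-(a / τ ^ 2)) ≤ y ^ 2 * Real.exp (-(b / τ ^ 2)) := by
  apply mul_le_mul (pow_le_pow_left₀ hx hxy 2) _ (Real.exp_pos _).le (by positivity)
  apply Real.exp_le_exp.2
  apply neg_le_neg
  exact div_le_div_of_nonneg_right hab (by positivity)

theorem aw_lowE : AwLowE := by
  refine ⟨(1 / 12) ^ 2 * (1 / 39) ^ 2 * (1 / 14592) ^ 2 * (1 / 7680) ^ 2 * (1 / 4), 21527,
    by positivity, by norm_num, ?_⟩
  intro τ hτ hτ1 d hd A X0 hA hX0 hg w hw
  have hd1 : 1 ≤ d := by omega
  have hdR : (2 : ℝ) ≤ d := by exact_mod_cast hd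
  have hd0 : (0 : ℝ) < d := by linarith
  obtain ⟨s, hs⟩ : ∃ s, s = Real.sqrt d := ⟨_, rfl⟩
  have hs1 : 1 ≤ s := by
    rw [hs]
    exact Real.one_le_sqrt.2 (by linarith)
  have hss : s ^ 2 = d := by
    rw [hs]
    exact Real.sq_sqrt hd0.le
  obtain ⟨r1, hr1⟩ : ∃ r1 : ℝ, r1 = 1 / (768 * d) := ⟨_, rfl⟩
  have hr1p : 0 < r1 := by rw [hr1]; positivity
  have hr11 : r1 ≤ 1 := by
    rw [hr1, div_le_one (by positivity)]
    linarith
  obtain ⟨c1, hc1⟩ : ∃ c1, c1 = Function.update (cB d) (true, 0) (Metric.closedBall (0 : ℂ) r1) :=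
    ⟨_, rfl⟩
  obtain ⟨c2, hc2⟩ : ∃ c2, c2 = Function.update c1 (true, 1)
    (Metric.closedBall (0 : ℂ) (1 / 768)) := ⟨_, rfl⟩
  obtain ⟨c3, hc3⟩ : ∃ c3, c3 = Function.update c2 (true, 2)
    (Metric.closedBall ((2 * d : ℝ) : ℂ) d) := ⟨_, rfl⟩
  obtain ⟨c4, hc4⟩ : ∃ c4, c4 = Function.update c3 (false, 0)
    (Metric.closedBall ((2 : ℝ) : ℂ) 1) := ⟨_, rfl⟩
  have cl0 : ∀ q, IsClosed (cB d q) := fun q => Metric.isClosed_closedBall
  have cl1 : ∀ q, IsClosed (c1 q) := by rw [hc1]; exact upd_closed cl0 _ _ _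
  have cl2 : ∀ q, IsClosed (c2 q) := by rw [hc2]; exact upd_closed cl1 _ _ _
  have cl3 : ∀ q, IsClosed (c3 q) := by rw [hc3]; exact upd_closed cl2 _ _ _
  have hcBm : ∀ (b : Bool) (k : ℕ) (z : ℂ), z ∈ cB d (b, k) ↔ ‖z‖ ≤ 9 * (2 * s) ^ k := by
    intro b k z
    unfold cB
    rw [Metric.mem_closedBall, dist_zero_right, ← hs]
  -- the four shifts
  have t0 := typ hd1 hA hX0 hτ hτ1 hg hw
  have t1 := chn (y := (1 / (7680 * d)) ^ 2 * Real.exp (-(340 / τ ^ 2)))
    (sin_sh hd1 (Nat.zero_le d) hA hX0 hτ hw true cl0 0 (M := 9) (r := r1) (by norm_num) hr1p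
      (fun z hz => by
        rw [sub_zero]
        have := (hcBm true 0 z).1 hz
        rwa [pow_zero, mul_one] at this)) (by
      rw [Nat.choose_zero_right, Nat.cast_one, div_one, pow_zero, norm_zero]
      refine fac (by positivity) ?_ hτ ?_
      · rw [div_le_div_iff₀ (by positivity) (by positivity), hr1]
        field_simp
        nlinarith
      · nlinarith) (by positivity) t0
  rw [← hc1] at t1
  have t2 := chn (y := (1 / (14592 * s)) ^ 2 * Real.exp (-(1159 / τ ^ 2)))
    (sin_sh hd1 hd1 hA hX0 hτ hw true cl1 0 (M := 18 * s) (r := 1 / 768) (by positivity)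
      (by norm_num) (fun z hz => by
        rw [sub_zero]
        rw [hc1, Function.update_of_ne (by simp)] at hz
        have := (hcBm true 1 z).1 hz
        rw [pow_one] at this
        linarith)) (by
      rw [Nat.choose_one_right, pow_one, norm_zero, ← hs]
      have h1 : 18 * s + 1 / 768 ≤ 19 * s := by linarith
      refine fac (by positivity) ?_ hτ ?_
      · rw [div_le_div_iff₀ (by positivity) (by positivity)]
        linarith
      · rw [div_le_iff₀ hd0, ← hss]
        have h2 : 0 ≤ 18 * s + 1 / 768 := by positivity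
        have h3 : (18 * s + 1 / 768) * (21 * s) ≤ 19 * s * (21 * s) :=
          mul_le_mul_of_nonneg_right h1 (by positivity)
        have h4 : (18 * s + 1 / 768) ^ 2 ≤ (19 * s) ^ 2 := pow_le_pow_left₀ h2 h1 2
        nlinarith) (by positivity) t1
  rw [← hc2] at t2
  have t3 := chn (y := (1 / 39) ^ 2 * Real.exp (-(19500 / τ ^ 2)))
    (sin_sh hd1 hd hA hX0 hτ hw true cl2 ((2 * d : ℝ) : ℂ) (M := 38 * d) (r := d) (by positivity)
      hd0 (fun z hz => by
        rw [hc2, Function.update_of_ne (by simp), hc1, Function.update_of_ne (by simp)] at hz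
        have := (hcBm true 2 z).1 hz
        rw [mul_pow, hss] at this
        have h1 := norm_sub_le z ((2 * d : ℝ) : ℂ)
        rw [Complex.norm_real, Real.norm_of_nonneg (by positivity)] at h1
        linarith)) (by
      rw [Complex.norm_real, Real.norm_of_nonneg (by positivity), ← hs, hss]
      have hch : (d : ℝ) ^ 2 / 4 ≤ (d.choose 2 : ℝ) := by
        have h1 : (d.choose 2 : ℝ) = d * (d - 1) / 2 := Nat.cast_choose_two ℝ d
        rw [h1]
        nlinarith
      have hch0 : (0 : ℝ) < (d.choose 2 : ℝ) := lt_of_lt_of_le (by positivity) hch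
      refine fac (by positivity) ?_ hτ ?_
      · rw [div_le_div_iff₀ (by positivity) (by positivity)]
        linarith
      · rw [div_le_iff₀ hch0]
        nlinarith) (by positivity) t2
  rw [← hc3] at t3
  have t4 := chn (y := (1 / 12) ^ 2 * Real.exp (-(528 / τ ^ 2)))
    (sin_sh hd1 (Nat.zero_le d) hA hX0 hτ hw false cl3 ((2 : ℝ) : ℂ) (M := 11) (r := 1)
      (by norm_num) one_pos (fun z hz => by
        rw [hc3, Function.update_of_ne (by simp), hc2, Function.update_of_ne (by simp), hc1,
          Function.update_of_ne (by simp)] at hz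
        have := (hcBm false 0 z).1 hz
        rw [pow_zero, mul_one] at this
        have h1 := norm_sub_le z ((2 : ℝ) : ℂ)
        rw [Complex.norm_real, Real.norm_of_nonneg (by norm_num)] at h1
        linarith)) (by
      rw [Nat.choose_zero_right, Nat.cast_one, div_one, pow_zero, Complex.norm_real,
        Real.norm_of_nonneg (by norm_num)]
      refine fac (by norm_num) (by norm_num) hτ (by norm_num)) (by positivity) t3
  rw [← hc4] at t4
  have hsub : Ev w c4 ⊆ {X : CV d | AW w X} := by
    intro X hX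
    have hq : ∀ q : Bool × ℕ, hm (jv X w q.2) (vv w q.1) ∈ c4 q := hX
    have a0 := hq (true, 0)
    have a1 := hq (true, 1)
    have a2 := hq (true, 2)
    have b0 := hq (false, 0)
    rw [hc4, Function.update_of_ne (by simp), hc3, Function.update_of_ne (by simp), hc2,
      Function.update_of_ne (by simp), hc1, Function.update_self, Metric.mem_closedBall,
      dist_zero_right, vv_true, hm_pp, hr1] at a0
    rw [hc4, Function.update_of_ne (by simp), hc3, Function.update_of_ne (by simp), hc2,
      Function.update_self, Metric.mem_closedBall, dist_zero_right, vv_true, hm_pp] at a1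
    rw [hc4, Function.update_of_ne (by simp), hc3, Function.update_self, Metric.mem_closedBall,
      dist_eq_norm, vv_true, hm_pp] at a2
    rw [hc4, Function.update_self, Metric.mem_closedBall, dist_eq_norm, vv_false] at b0
    simp only at a0 a1 a2 b0
    have n2d : ‖((2 * d : ℝ) : ℂ)‖ = 2 * d := by
      rw [Complex.norm_real, Real.norm_of_nonneg (by positivity)]
    have n2 : ‖((2 : ℝ) : ℂ)‖ = 2 := by
      rw [Complex.norm_real, Real.norm_of_nonneg (by norm_num)]
    have a2u : ‖wd w (jv X w 2)‖ ≤ 3 * d := by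
      have h1 := norm_add_le (wd w (jv X w 2) - ((2 * d : ℝ) : ℂ)) ((2 * d : ℝ) : ℂ)
      rw [sub_add_cancel, n2d] at h1
      linarith
    have a2l : (d : ℝ) ≤ ‖wd w (jv X w 2)‖ := by
      have h1 := norm_sub_le (wd w (jv X w 2)) (wd w (jv X w 2) - ((2 * d : ℝ) : ℂ))
      rw [sub_sub_cancel, n2d] at h1
      linarith
    have b0u : ‖hm (jv X w 0) w‖ ≤ 3 := by
      have h1 := norm_add_le (hm (jv X w 0) w - ((2 : ℝ) : ℂ)) ((2 : ℝ) : ℂ)
      rw [sub_add_cancel, n2] at h1
      linarith
    have b0l : 1 ≤ ‖hm (jv X w 0) w‖ := by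
      have h1 := norm_sub_le (hm (jv X w 0) w) (hm (jv X w 0) w - ((2 : ℝ) : ℂ))
      rw [sub_sub_cancel, n2] at h1
      linarith
    have hbd : ∀ k, ‖wd w (jv X w k)‖ ≤ 9 * (2 * Real.sqrt d) ^ k ∧
        ‖hm (jv X w k) w‖ ≤ 9 * (2 * Real.sqrt d) ^ k := by
      intro k
      rw [← hs]
      constructor
      · rcases Nat.lt_or_ge k 3 with hk | hk
        · interval_cases k
          · rw [pow_zero, mul_one]
            have : 1 / (768 * (d : ℝ)) ≤ 1 := by rw [← hr1]; exact hr11
            linarith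
          · rw [pow_one]
            linarith
          · rw [mul_pow, hss]
            linarith
        · have h1 := hq (true, k)
          rw [hc4, Function.update_of_ne (by simp), hc3,
            Function.update_of_ne (by simp only [ne_eq, Prod.mk.injEq, true_and]; omega), hc2,
            Function.update_of_ne (by simp only [ne_eq, Prod.mk.injEq, true_and]; omega), hc1,
            Function.update_of_ne (by simp only [ne_eq, Prod.mk.injEq, true_and]; omega)] at h1
          have h2 := (hcBm true k _).1 h1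
          rw [vv_true, hm_pp] at h2
          exact h2
      · rcases Nat.eq_zero_or_pos k with hk | hk
        · rw [hk, pow_zero, mul_one]
          linarith
        · have h1 := hq (false, k)
          rw [hc4, Function.update_of_ne (by simp only [ne_eq, Prod.mk.injEq, true_and]; omega),
            hc3, Function.update_of_ne (by simp), hc2, Function.update_of_ne (by simp), hc1,
            Function.update_of_ne (by simp)] at h1
          exact (hcBm false k _).1 h1
    refine ⟨?_, a1, a2l, a2u, ?_, ?_, hbd⟩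
    · rw [← jv_zero]
      exact a0
    · rw [← jv_zero]
      exact b0l
    · rw [← jv_zero]
      exact b0u
  refine le_trans (le_of_eq ?_) (t4.trans (measure_mono hsub))
  congr 1
  have e1 : (1 / (14592 * s)) ^ 2 = (1 / 14592) ^ 2 / d := by
    rw [← hss]
    field_simp
  have hE : Real.exp (-(21527 / τ ^ 2)) = Real.exp (-(528 / τ ^ 2)) *
      (Real.exp (-(19500 / τ ^ 2)) * (Real.exp (-(1159 / τ ^ 2)) * Real.exp (-(340 / τ ^ 2)))) := by
    rw [← Real.exp_add, ← Real.exp_add, ← Real.exp_add]
    congr 1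
    ring
  rw [e1, hE]
  field_simp

end Pool.Agent.H73.LB
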