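import Pool.Agent.H91.LB.Def

/-!
# [H91 LB] Two distant events have probability `≤ C d ^ (-6)` (helper73)
-/

set_option autoImplicit false

open Finset MeasureTheory

namespace Pool.Agent.H73.LB

open Pool.H70.SF Pool.Agent.H73.ES Pool.Agent.H91.LB

private theorem wd_cm (u v : ℂ × ℂ) : ‖wd u v‖ = ‖wd v u‖ := by
  have : wd u v = -wd v u := by
    unfold wd
    ring
  rw [this, norm_neg]

private theorem c_wd {d : ℕ} (u w : ℂ × ℂ) (k : ℕ) : Continuous fun X : CV d => wd (jv X u k) w := by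
  have h := jv_cont (d := d) u k
  exact (h.fst.mul continuous_const).sub (h.snd.mul continuous_const)

private theorem c_wf {d : ℕ} (u w : ℂ × ℂ) : Continuous fun X : CV d => wd (FF X u) w := by
  have h := ff_cont (d := d) u
  exact (h.fst.mul continuous_const).sub (h.snd.mul continuous_const)

private theorem c_hf {d : ℕ} (u w : ℂ × ℂ) : Continuous fun X : CV d => hm (FF X u) w := by
  have h := ff_cont (d := d) u
  exact (h.fst.mul continuous_const).add (h.snd.mul continuous_const)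

theorem aw_pair : AwPair := by
  intro ε τ hε hτ
  refine ⟨4 * (9 / 768 ^ 2) ^ 2 / τ ^ 8 * (256 ^ 3 * (1 + 1 / ε) ^ 18 * (3 / 768 ^ 2) ^ 2 / τ ^ 6),
    by positivity, ?_⟩
  intro d hd A X0 hA hg w w' hw hw' hww
  have hd0 : (0 : ℝ) < d := by exact_mod_cast (by omega : 0 < d)
  have hs : 0 < Real.sqrt d := Real.sqrt_pos.2 hd0
  have hwp : 0 < ‖wd w w'‖ := lt_of_lt_of_le (by positivity) hww
  obtain ⟨u, hu⟩ : ∃ u : ℕ → ℂ × ℂ, u = fun i => if i = 0 then w else w' := ⟨_, rfl⟩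
  have hu0 : u 0 = w := by rw [hu]; rfl
  have hu1 : u 1 = w' := by rw [hu]; rfl
  obtain ⟨S, hS⟩ : ∃ S : Set (CV d), S = {X | ‖wd (FF X w) w‖ ≤ 1 / (768 * d) ∧
      ‖hm (FF X w) w‖ ≤ 3 ∧ ‖wd (jv X w 1) w‖ ≤ 1 / 768 ∧ ‖wd (jv X w 2) w‖ ≤ 3 * d} := ⟨_, rfl⟩
  have hSm : MeasurableSet S := by
    rw [hS]
    exact (measurableSet_le (c_wf w w).measurable.norm measurable_const).inter
      ((measurableSet_le (c_hf w w).measurable.norm measurable_const).inter
        ((measurableSet_le (c_wd w w 1).measurable.norm measurable_const).inter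
          (measurableSet_le (c_wd w w 2).measurable.norm measurable_const)))
  have hinv : ∀ (X f : CV d), IsVan u 1 f.1 → IsVan u 1 f.2 → (X + f ∈ S ↔ X ∈ S) := by
    intro X f h1 h2
    have hj : ∀ k, k ≤ 2 → jv (X + f) w k = jv X w k := by
      intro k hk
      have a1 : jt f.1 w k = 0 := by
        rw [← hu0]
        interval_cases k
        · exact h1.1.1
        · exact h1.1.2.1
        · exact h1.1.2.2
      have a2 : jt f.2 w k = 0 := by
        rw [← hu0]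
        interval_cases k
        · exact h2.1.1
        · exact h2.1.2.1
        · exact h2.1.2.2
      unfold jv
      rw [Prod.fst_add, Prod.snd_add, jt_add, jt_add, a1, a2, add_zero, add_zero]
    have hF : FF (X + f) w = FF X w := by
      rw [← jv_zero, ← jv_zero]
      exact hj 0 (by norm_num)
    rw [hS, Set.mem_ofPred_eq, Set.mem_ofPred_eq, hF, hj 1 (by norm_num), hj 2 le_rfl]
  have e0 := m_start hA (by omega : 2 ≤ d) X0 hτ hw hw (r1 := 1 / (768 * d)) (r2 := 3)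
    (r3 := 1 / 768) (r4 := 3 * d) (by positivity) (by norm_num) (by norm_num) (by positivity)
  rw [← hS] at e0
  have e1 := m_step (m := 1) hA le_rfl (by omega) X0 hτ (u := u) (fun i hi => by
      interval_cases i
      · rw [hu0]; exact hw
      · rw [hu1]; exact hw') (fun i hi => by
      interval_cases i
      rw [hu0, hu1]
      intro hcon
      rw [wd_cm, hcon, norm_zero] at hwp
      exact lt_irrefl _ hwp) hw' hSm hinv (r1 := 1 / (768 * d)) (r2 := 3) (r3 := 1 / 768)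
      (by positivity) (by norm_num) (by norm_num)
  rw [hu1] at e1
  have hKK : KK d u 1 ≤ (1 + 1 / ε) ^ 3 := by
    unfold KK
    rw [prod_range_one, hu0, hu1]
    apply pow_le_pow_left₀ (by positivity)
    have h1 : ε ≤ Real.sqrt d * ‖wd w' w‖ := by
      rw [div_le_iff₀ hs] at hww
      rw [wd_cm w' w]
      linarith
    have h2 : 1 / (Real.sqrt d * ‖wd w' w‖) ≤ 1 / ε := one_div_le_one_div_of_le hε h1
    linarith
  have hKK0 : 0 ≤ KK d u 1 := by
    unfold KK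
    exact prod_nonneg fun i _ => by positivity
  have hsub : {X : CV d | AW w X ∧ AW w' X} ⊆ S ∩ {X | ‖wd (FF X w') w'‖ ≤ 1 / (768 * d) ∧
      ‖hm (FF X w') w'‖ ≤ 3 ∧ ‖wd (jv X w' 1) w'‖ ≤ 1 / 768} := by
    rintro X ⟨h1, h2⟩
    refine ⟨?_, ?_, ?_, ?_⟩
    · rw [hS]
      exact ⟨by rw [wd_cm]; exact h1.p0, h1.q0u, by rw [wd_cm]; exact h1.p1,
        by rw [wd_cm]; exact h1.p2u⟩
    · rw [wd_cm]
      exact h2.p0
    · exact h2.q0u
    · rw [wd_cm]
      exact h2.p1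
  refine (measure_mono hsub).trans (e1.trans ?_)
  have e2 := e0.trans (mul_le_mul_right hg _)
  rw [mul_one] at e2
  refine (mul_le_mul_right e2 _).trans ?_
  rw [← ENNReal.ofReal_mul (by positivity)]
  apply ENNReal.ofReal_le_ofReal
  have h18 : KK d u 1 ^ 6 ≤ (1 + 1 / ε) ^ 18 := by
    calc KK d u 1 ^ 6 ≤ ((1 + 1 / ε) ^ 3) ^ 6 := pow_le_pow_left₀ hKK0 hKK 6
      _ = _ := by rw [← pow_mul]
  calc (((2 * 1 + 2 : ℕ) : ℝ) ^ (2 * 1 + 2)) ^ 3 * KK d u 1 ^ 6 *
        (1 / (768 * d) * 3 * (1 / 768)) ^ 2 / (d * τ ^ 6) *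
        (4 * (1 / (768 * d) * 3 * (1 / 768) * (3 * d)) ^ 2 / ((d : ℝ) ^ 3 * τ ^ 8))
      ≤ (((2 * 1 + 2 : ℕ) : ℝ) ^ (2 * 1 + 2)) ^ 3 * (1 + 1 / ε) ^ 18 *
        (1 / (768 * d) * 3 * (1 / 768)) ^ 2 / (d * τ ^ 6) *
        (4 * (1 / (768 * d) * 3 * (1 / 768) * (3 * d)) ^ 2 / ((d : ℝ) ^ 3 * τ ^ 8)) := by
        gcongr
    _ = 4 * (9 / 768 ^ 2) ^ 2 / τ ^ 8 *
        (256 ^ 3 * (1 + 1 / ε) ^ 18 * (3 / 768 ^ 2) ^ 2 / τ ^ 6) / (d : ℝ) ^ 6 := by
        have h4 : ((2 * 1 + 2 : ℕ) : ℝ) = 4 := by norm_num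
        rw [h4]
        field_simp
        ring

end Pool.Agent.H73.LB
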