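import Pool.Agent.H26.SF.Gau
import Pool.Agent.H73.ES.Cau
import Pool.Agent.H73.ES.Kos

/-!
# [H91 LB] Kostlan inner products through the jets (helper73)
-/

set_option autoImplicit false

open Finset MeasureTheory

namespace Pool.Agent.H73.LB

open Pool.H70.SF Pool.Agent.H73.ES Pool.H26.SF

/-- the jets at `w` as a pair -/
private noncomputable def jX {d : ℕ} (w : ℂ × ℂ) (X : CV d) : CV d :=
  (fun k => jt X.1 w k, fun k => jt X.2 w k)

private theorem bn_cn {d : ℕ} (Y : CV d) : BN2 Y = CN Y.1 + CN Y.2 := by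
  unfold BN2 CN
  rw [← Finset.sum_add_distrib]
  exact Finset.sum_congr rfl fun k _ => add_div _ _ _

private theorem bn_jX {d : ℕ} {w : ℂ × ℂ} (hw : IsU w) (X : CV d) : BN2 (jX w X) = BN2 X := by
  rw [bn_cn, bn_cn]
  congr 1
  · rw [← kos X.1 hw]
    rfl
  · rw [← kos X.2 hw]
    rfl

private theorem jX_add {d : ℕ} (w : ℂ × ℂ) (X f : CV d) (t : ℂ) :
    jX w (X + t • f) = jX w X + t • jX w f := by
  unfold jX
  ext k
  · show jt (X.1 + t • f.1) w k = jt X.1 w k + t * jt f.1 w k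
    rw [jt_add, jt_smul]
  · show jt (X.2 + t • f.2) w k = jt X.2 w k + t * jt f.2 w k
    rw [jt_add, jt_smul]

private theorem ip_jX {d : ℕ} {w : ℂ × ℂ} (hw : IsU w) (X f : CV d) :
    ipK (jX w X) (jX w f) = ipK X f := by
  have h : ∀ t : ℂ, ((starRingEnd ℂ) t * ipK (jX w X) (jX w f)).re =
      ((starRingEnd ℂ) t * ipK X f).re := by
    intro t
    have h1 := bn_jX hw (X + t • f)
    rw [jX_add, BN2_add_smul, BN2_add_smul, bn_jX hw, bn_jX hw] at h1
    linarith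
  have h1 := h 1
  have h2 := h Complex.I
  rw [map_one, one_mul, one_mul] at h1
  apply Complex.ext
  · exact h1
  · simpa using h2

/-- the pair `p ⊗ a` -/
noncomputable def TT {d : ℕ} (p : Fin (d + 1) → ℂ) (a : ℂ × ℂ) : CV d := (a.1 • p, a.2 • p)

theorem tt_bn {d : ℕ} (p : Fin (d + 1) → ℂ) (a : ℂ × ℂ) : BN2 (TT p a) = n2 a * CN p := by
  unfold BN2 CN n2 TT
  rw [mul_sum]
  refine sum_congr rfl fun k _ => ?_
  simp only [Pi.smul_apply, smul_eq_mul, norm_mul]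
  ring

theorem tt_jv {d : ℕ} (X : CV d) (p : Fin (d + 1) → ℂ) (a : ℂ × ℂ) (t : ℂ)
    (u : ℂ × ℂ) (k : ℕ) :
    jv (X + t • TT p a) u k = jv X u k + (t * jt p u k) • a := by
  unfold jv TT
  ext
  · show jt (X.1 + t • (a.1 • p)) u k = jt X.1 u k + (t * jt p u k) * a.1
    rw [jt_add, jt_smul, jt_smul]
    ring
  · show jt (X.2 + t • (a.2 • p)) u k = jt X.2 u k + (t * jt p u k) * a.2
    rw [jt_add, jt_smul, jt_smul]
    ring

/-- the form whose jets at `w` are `t ^ k` -/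
theorem unit_jet {d k : ℕ} (hk : k ≤ d) {z : ℂ × ℂ} (hz : IsU z) :
    ∃ p : Fin (d + 1) → ℂ, (∀ j ≤ d, jt p z j = if j = k then 1 else 0) ∧
      CN p = 1 / (d.choose k : ℝ) := by
  obtain ⟨p, hp⟩ := kos_surj hz (fun j : Fin (d + 1) => if (j : ℕ) = k then (1 : ℂ) else 0)
  refine ⟨p, fun j hj => hp ⟨j, by omega⟩, ?_⟩
  rw [← kos p hz]
  simp only [hp]
  rw [sum_eq_single (⟨k, by omega⟩ : Fin (d + 1))]
  · simp
  · intro j _ hj
    have h1 : (j : ℕ) ≠ k := fun h => hj (Fin.ext h)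
    simp [h1]
  · intro h
    exact absurd (mem_univ _) h

theorem jt_big {d k : ℕ} (hk : d < k) (p : Fin (d + 1) → ℂ) (u : ℂ × ℂ) : jt p u k = 0 :=
  Polynomial.coeff_eq_zero_of_natDegree_lt (lt_of_le_of_lt (rs_deg p u) hk)

theorem unit_jet' {d k : ℕ} (hk : k ≤ d) {z : ℂ × ℂ} {p : Fin (d + 1) → ℂ}
    (hp : ∀ j ≤ d, jt p z j = if j = k then 1 else 0) (j : ℕ) :
    jt p z j = if j = k then 1 else 0 := by
  rcases le_or_gt j d with h | h
  · exact hp j h
  · rw [jt_big h, if_neg (by omega)]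

/-- PAR -/
theorem par {d k : ℕ} (hk : k ≤ d) {w : ℂ × ℂ} (hw : IsU w) {p : Fin (d + 1) → ℂ}
    (hp : ∀ j ≤ d, jt p w j = if j = k then 1 else 0) (a : ℂ × ℂ) (Y : CV d) :
    ipK Y (TT p a) = hm (jv Y w k) a / (d.choose k : ℂ) := by
  rw [← ip_jX hw]
  unfold ipK
  rw [sum_eq_single (⟨k, by omega⟩ : Fin (d + 1))]
  · have h1 : (jX w (TT p a)).1 ⟨k, by omega⟩ = a.1 := by
      show jt (a.1 • p) w k = a.1
      rw [jt_smul, hp k hk, if_pos rfl, mul_one]
    have h2 : (jX w (TT p a)).2 ⟨k, by omega⟩ = a.2 := by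
      show jt (a.2 • p) w k = a.2
      rw [jt_smul, hp k hk, if_pos rfl, mul_one]
    rw [h1, h2]
    rfl
  · intro j _ hj
    have hjk : (j : ℕ) ≠ k := fun h => hj (Fin.ext h)
    have hjd : (j : ℕ) ≤ d := by omega
    have h1 : (jX w (TT p a)).1 j = 0 := by
      show jt (a.1 • p) w j = 0
      rw [jt_smul, hp j hjd, if_neg hjk, mul_zero]
    have h2 : (jX w (TT p a)).2 j = 0 := by
      show jt (a.2 • p) w j = 0
      rw [jt_smul, hp j hjd, if_neg hjk, mul_zero]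
    rw [h1, h2]
    simp
  · intro h
    exact absurd (mem_univ _) h

theorem hm_pp (w v : ℂ × ℂ) : hm v (pp w) = wd w v := by
  unfold hm pp wd
  simp only [map_neg, Complex.conj_conj]
  ring

theorem wd_pp {w : ℂ × ℂ} (hw : IsU w) : wd w (pp w) = 1 := by
  have h : n2 w = 1 := hw
  unfold n2 at h
  have h1 : w.1 * starRingEnd ℂ w.1 + w.2 * starRingEnd ℂ w.2 = 1 := by
    rw [Complex.mul_conj, Complex.mul_conj, Complex.normSq_eq_norm_sq, Complex.normSq_eq_norm_sq]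
    exact_mod_cast h
  unfold wd pp
  rw [← h1]
  ring

theorem hm_self_unit {w : ℂ × ℂ} (hw : IsU w) : hm w w = 1 := by
  have h : n2 w = 1 := hw
  unfold n2 at h
  unfold hm
  rw [Complex.mul_conj, Complex.mul_conj, Complex.normSq_eq_norm_sq, Complex.normSq_eq_norm_sq]
  exact_mod_cast h

theorem hm_ppw (w : ℂ × ℂ) : hm (pp w) w = 0 := by
  unfold hm pp
  ring

theorem wd_ww (w : ℂ × ℂ) : wd w w = 0 := by
  unfold wd
  ring

theorem n2_pp {w : ℂ × ℂ} (hw : IsU w) : n2 (pp w) = 1 := by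
  have h : n2 w = 1 := hw
  unfold n2 at h
  unfold n2 pp
  simp only [norm_neg, RCLike.norm_conj]
  linarith

end Pool.Agent.H73.LB
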