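import Pool.Agent.H26.SF.Gau

/-!
# [H91 LB] The shift lemma (helper73)

Lower bounds for Gaussian measures: a set `E` on which the linear functional `l` is within `M` of `z0` is moved by translations in the
direction `f` to a set on which `l` is within `r` of `z0`.
-/

set_option autoImplicit false

open Finset MeasureTheory

namespace Pool.Agent.H73.LB

open Pool.H70.SF Pool.H26.SF

private theorem sh_pt {d : ℕ} {τ : ℝ} (hτ : 0 < τ) (X0 f : CV d) {ρ B : ℝ} (hB : 0 ≤ B)
    {X : CV d} (hX : ‖ipK (X - X0) f‖ ≤ B) {t : ℂ} (ht : ‖t‖ ≤ ρ) :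
    gd τ X0 X ≤ ENNReal.ofReal (Real.exp ((2 * ρ * B + ρ ^ 2 * BN2 f) / τ ^ 2)) *
      gd τ X0 (X + t • f) := by
  unfold gd
  rw [← ENNReal.ofReal_mul (Real.exp_pos _).le, ← Real.exp_add]
  refine ENNReal.ofReal_le_ofReal (Real.exp_le_exp.2 ?_)
  have e1 : X + t • f - X0 = (X - X0) + t • f := by abel
  rw [e1, BN2_add_smul, ← add_div]
  have hτ2 : 0 < τ ^ 2 := by positivity
  rw [div_le_div_iff_of_pos_right hτ2]
  have hf : 0 ≤ BN2 f := by
    unfold BN2
    exact sum_nonneg fun k _ => by positivity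
  have h1 : ((starRingEnd ℂ) t * ipK (X - X0) f).re ≤ ρ * B := by
    refine (Complex.re_le_norm _).trans ?_
    rw [norm_mul, RCLike.norm_conj]
    exact mul_le_mul ht hX (norm_nonneg _) ((norm_nonneg _).trans ht)
  have h2 : ‖t‖ ^ 2 * BN2 f ≤ ρ ^ 2 * BN2 f :=
    mul_le_mul_of_nonneg_right (pow_le_pow_left₀ (norm_nonneg _) ht 2) hf
  linarith

theorem shift_gm {d : ℕ} {τ : ℝ} (hτ : 0 < τ) (X0 f : CV d) (l : CV d → ℂ) (hl : Measurable l)
    (hlf : ∀ X, ∀ t : ℂ, l (X + t • f) = l X + t) (z0 : ℂ) {M r B : ℝ} (hM : 0 ≤ M) (hr : 0 < r)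
    (hB : 0 ≤ B) (E E' : Set (CV d)) (hE : MeasurableSet E) (hE' : MeasurableSet E')
    (hEM : ∀ X ∈ E, ‖l X - z0‖ ≤ M) (hEB : ∀ X ∈ E, ‖ipK (X - X0) f‖ ≤ B)
    (hEE : ∀ X ∈ E, ∀ t : ℂ, X + t • f ∈ E') :
    ENNReal.ofReal ((r / (M + r)) ^ 2 *
        Real.exp (-((2 * (M + r) * B + (M + r) ^ 2 * BN2 f) / τ ^ 2))) * gm τ X0 E ≤
      gm τ X0 (E' ∩ {X | ‖l X - z0‖ ≤ r}) := by
  obtain ⟨ρ, hρ⟩ : ∃ ρ : ℝ, ρ = M + r := ⟨_, rfl⟩
  have hρ0 : 0 < ρ := by rw [hρ]; linarith
  rw [← hρ]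
  obtain ⟨Q, hQ⟩ : ∃ Q : ℝ, Q = (2 * ρ * B + ρ ^ 2 * BN2 f) / τ ^ 2 := ⟨_, rfl⟩
  rw [← hQ]
  obtain ⟨S, hS⟩ : ∃ S : Set (CV d), S = E' ∩ {X | ‖l X - z0‖ ≤ r} := ⟨_, rfl⟩
  have hSm : MeasurableSet S := by
    rw [hS]
    exact hE'.inter (measurableSet_le (hl.sub_const z0).norm measurable_const)
  rw [← hS]
  have hgm : Measurable (gd τ X0) := gd_meas τ X0
  obtain ⟨H, hH⟩ : ∃ H : CV d → ℂ → ENNReal, H = fun Y t =>
      (Metric.closedBall (0 : ℂ) ρ).indicator (fun _ => 1) t * S.indicator (gd τ X0) Y := ⟨_, rfl⟩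
  have hmap : Measurable fun q : CV d × ℂ => q.1 + q.2 • f := by
    have : Continuous fun q : CV d × ℂ => q.1 + q.2 • f := by fun_prop
    exact this.measurable
  have hHm : Measurable fun q : CV d × ℂ => H (q.1 + q.2 • f) q.2 := by
    rw [hH]
    refine Measurable.mul ?_ ?_
    · exact ((measurable_const.indicator Metric.isClosed_closedBall.measurableSet).comp
        measurable_snd)
    · exact (hgm.indicator hSm).comp hmap
  -- one line
  have hB1 : ∀ X ∈ E, gd τ X0 X * volume (Metric.closedBall (z0 - l X) r) ≤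
      ENNReal.ofReal (Real.exp Q) * ∫⁻ t : ℂ, H (X + t • f) t := by
    intro X hX
    rw [← lintegral_const_mul' _ _ ENNReal.ofReal_ne_top]
    calc gd τ X0 X * volume (Metric.closedBall (z0 - l X) r)
        = ∫⁻ _t : ℂ in Metric.closedBall (z0 - l X) r, gd τ X0 X := by
          rw [setLIntegral_const]
      _ ≤ ∫⁻ t : ℂ in Metric.closedBall (z0 - l X) r,
            ENNReal.ofReal (Real.exp Q) * H (X + t • f) t := by
          refine setLIntegral_mono' Metric.isClosed_closedBall.measurableSet fun t ht => ?_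
          have ht' : ‖l X + t - z0‖ ≤ r := by
            rw [Metric.mem_closedBall, dist_eq_norm] at ht
            have : t - (z0 - l X) = l X + t - z0 := by ring
            rwa [this] at ht
          have htρ : ‖t‖ ≤ ρ := by
            have h1 : t = (l X + t - z0) - (l X - z0) := by ring
            calc ‖t‖ = ‖(l X + t - z0) - (l X - z0)‖ := by rw [← h1]
              _ ≤ ‖l X + t - z0‖ + ‖l X - z0‖ := norm_sub_le _ _
              _ ≤ ρ := by
                rw [hρ]
                linarith [hEM X hX]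
          have hmem : X + t • f ∈ S := by
            rw [hS]
            refine ⟨hEE X hX t, ?_⟩
            show ‖l (X + t • f) - z0‖ ≤ r
            rw [hlf]
            exact ht'
          have hb : t ∈ Metric.closedBall (0 : ℂ) ρ := by
            rw [Metric.mem_closedBall, dist_zero_right]
            exact htρ
          rw [hH]
          simp only
          rw [Set.indicator_of_mem hb, Set.indicator_of_mem hmem, one_mul, hQ]
          exact sh_pt hτ X0 f hB (hEB X hX) htρ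
      _ ≤ ∫⁻ t : ℂ, ENNReal.ofReal (Real.exp Q) * H (X + t • f) t := setLIntegral_le_lintegral _ _
  -- integrate
  have hmain : gm τ X0 E * (ENNReal.ofReal r ^ 2 * NNReal.pi) ≤
      ENNReal.ofReal (Real.exp Q) * ((ENNReal.ofReal ρ ^ 2 * NNReal.pi) * gm τ X0 S) := by
    calc gm τ X0 E * (ENNReal.ofReal r ^ 2 * NNReal.pi)
        = ∫⁻ X in E, gd τ X0 X * volume (Metric.closedBall (z0 - l X) r) := by
          simp only [Complex.volume_closedBall]
          rw [lintegral_mul_const _ hgm]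
          unfold gm
          rw [withDensity_apply _ hE]
      _ ≤ ∫⁻ X in E, ENNReal.ofReal (Real.exp Q) * ∫⁻ t : ℂ, H (X + t • f) t :=
          setLIntegral_mono' hE hB1
      _ ≤ ∫⁻ X, ENNReal.ofReal (Real.exp Q) * ∫⁻ t : ℂ, H (X + t • f) t :=
          setLIntegral_le_lintegral _ _
      _ = ENNReal.ofReal (Real.exp Q) * ∫⁻ X, ∫⁻ t : ℂ, H (X + t • f) t :=
          lintegral_const_mul' _ _ ENNReal.ofReal_ne_top
      _ = ENNReal.ofReal (Real.exp Q) * ∫⁻ t : ℂ, ∫⁻ X, H (X + t • f) t := by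
          congr 1
          exact lintegral_lintegral_swap (f := fun X t => H (X + t • f) t) hHm.aemeasurable
      _ = ENNReal.ofReal (Real.exp Q) * ((ENNReal.ofReal ρ ^ 2 * NNReal.pi) * gm τ X0 S) := by
          congr 1
          have h1 : ∀ t : ℂ, ∫⁻ X, H (X + t • f) t =
              (Metric.closedBall (0 : ℂ) ρ).indicator (fun _ => 1) t * gm τ X0 S := by
            intro t
            rw [lintegral_add_right_eq_self (μ := (volume : Measure (CV d)))
              (fun Y => H Y t) (t • f), hH]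
            simp only
            rw [lintegral_const_mul _ (hgm.indicator hSm)]
            congr 1
            rw [lintegral_indicator hSm]
            unfold gm
            rw [withDensity_apply _ hSm]
          simp only [h1]
          rw [lintegral_mul_const _
            (measurable_const.indicator Metric.isClosed_closedBall.measurableSet),
            lintegral_indicator Metric.isClosed_closedBall.measurableSet, setLIntegral_const,
            one_mul, Complex.volume_closedBall]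
  have hpi : (NNReal.pi : ENNReal) = ENNReal.ofReal Real.pi := by
    rw [← NNReal.coe_real_pi, ENNReal.ofReal_coe_nnreal]
  rw [hpi, ← ENNReal.ofReal_pow hr.le, ← ENNReal.ofReal_pow hρ0.le, ← ENNReal.ofReal_mul (by positivity),
    ← ENNReal.ofReal_mul (by positivity), ← mul_assoc, ← ENNReal.ofReal_mul (by positivity),
    mul_comm] at hmain
  have hfin := mul_le_mul_right hmain (ENNReal.ofReal ((Real.exp Q * (ρ ^ 2 * Real.pi))⁻¹))
  have e1 : ENNReal.ofReal ((Real.exp Q * (ρ ^ 2 * Real.pi))⁻¹) *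
      (ENNReal.ofReal (Real.exp Q * (ρ ^ 2 * Real.pi)) * gm τ X0 S) = gm τ X0 S := by
    rw [← mul_assoc, ← ENNReal.ofReal_mul (by positivity), inv_mul_cancel₀ (by positivity),
      ENNReal.ofReal_one, one_mul]
  have e2 : ENNReal.ofReal ((Real.exp Q * (ρ ^ 2 * Real.pi))⁻¹) *
      (ENNReal.ofReal (r ^ 2 * Real.pi) * gm τ X0 E) =
      ENNReal.ofReal ((r / ρ) ^ 2 * Real.exp (-Q)) * gm τ X0 E := by
    rw [← mul_assoc, ← ENNReal.ofReal_mul (by positivity)]
    congr 2
    rw [Real.exp_neg]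
    have := Real.pi_pos
    field_simp
  rw [e1, e2] at hfin
  exact hfin

/-- the shift lemma for the measures of H70/SF/GA -/
theorem shift_gau {d : ℕ} {A τ : ℝ} (hA : 0 ≤ A) (hτ : 0 < τ) (X0 f : CV d) (l : CV d → ℂ)
    (hl : Measurable l) (hlf : ∀ X, ∀ t : ℂ, l (X + t • f) = l X + t) (z0 : ℂ) {M r B : ℝ}
    (hM : 0 ≤ M) (hr : 0 < r) (hB : 0 ≤ B) (E E' : Set (CV d)) (hE : MeasurableSet E)
    (hE' : MeasurableSet E') (hEM : ∀ X ∈ E, ‖l X - z0‖ ≤ M)
    (hEB : ∀ X ∈ E, ‖ipK (X - X0) f‖ ≤ B) (hEE : ∀ X ∈ E, ∀ t : ℂ, X + t • f ∈ E') :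
    ENNReal.ofReal ((r / (M + r)) ^ 2 *
        Real.exp (-((2 * (M + r) * B + (M + r) ^ 2 * BN2 f) / τ ^ 2))) * gau A X0 τ E ≤
      gau A X0 τ (E' ∩ {X | ‖l X - z0‖ ≤ r}) := by
  rw [gau_eq hA, Measure.smul_apply, Measure.smul_apply, smul_eq_mul, smul_eq_mul, mul_left_comm]
  gcongr
  exact shift_gm hτ X0 f l hl hlf z0 hM hr hB E E' hE hE' hEM hEB hEE

end Pool.Agent.H73.LB
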