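import Pool.Agent.H73.LB.Par
import Pool.Agent.H73.LB.Shift
import Pool.Agent.H73.ES.Tl
import Pool.Agent.H73.ES.Meas
import Pool.Agent.H41.RF.Gau

/-!
# [H91 LB] Typical jets have probability `≥ 1 / 4`; the shift of one jet (helper73)
-/

set_option autoImplicit false

open Finset MeasureTheory

namespace Pool.Agent.H73.LB

open Pool.H70.SF Pool.Agent.H73.ES Pool.H26.SF Pool.Agent.H41.RF

/-- the two directions -/
def vv (w : ℂ × ℂ) (s : Bool) : ℂ × ℂ := if s then pp w else w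

theorem vv_true (w : ℂ × ℂ) : vv w true = pp w := rfl

theorem vv_false (w : ℂ × ℂ) : vv w false = w := rfl

theorem n2_vv {w : ℂ × ℂ} (hw : IsU w) (s : Bool) : n2 (vv w s) = 1 := by
  cases s
  · exact hw
  · exact n2_pp hw

theorem hm_vv {w : ℂ × ℂ} (hw : IsU w) (s s' : Bool) :
    hm (vv w s) (vv w s') = if s = s' then 1 else 0 := by
  cases s <;> cases s'
  · rw [vv_false, hm_self_unit hw, if_pos rfl]
  · rw [vv_false, vv_true, hm_pp, wd_ww, if_neg (by decide)]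
  · rw [vv_false, vv_true, hm_ppw, if_neg (by decide)]
  · rw [vv_true, hm_pp, wd_pp hw, if_pos rfl]

theorem hm_add_l (a b c : ℂ × ℂ) : hm (a + b) c = hm a c + hm b c := by
  unfold hm
  simp only [Prod.fst_add, Prod.snd_add]
  ring

theorem hm_smul_l (t : ℂ) (a c : ℂ × ℂ) : hm (t • a) c = t * hm a c := by
  unfold hm
  simp only [Prod.smul_fst, Prod.smul_snd, smul_eq_mul]
  ring

theorem jv_split {d : ℕ} (X X0 : CV d) (w : ℂ × ℂ) (k : ℕ) :
    jv X w k = jv (X - X0) w k + jv X0 w k := by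
  unfold jv
  ext
  · show jt X.1 w k = jt (X.1 - X0.1) w k + jt X0.1 w k
    rw [← jt_add, sub_add_cancel]
  · show jt X.2 w k = jt (X.2 - X0.2) w k + jt X0.2 w k
    rw [← jt_add, sub_add_cancel]

theorem hm_split {d : ℕ} (X X0 : CV d) (w v : ℂ × ℂ) (k : ℕ) :
    hm (jv X w k) v = hm (jv (X - X0) w k) v + hm (jv X0 w k) v := by
  rw [jv_split X X0 w k, hm_add_l]

theorem ctr_jet {d : ℕ} (hd : 1 ≤ d) {X0 : CV d} (hX0 : Ctr X0) {w : ℂ × ℂ} (hw : IsU w)
    (s : Bool) (k : ℕ) : ‖hm (jv X0 w k) (vv w s)‖ ≤ 3 * Real.sqrt d ^ k := by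
  have hR : ∀ u, IsU u → nn (FF X0 u) ≤ 3 / 2 := by
    intro u hu
    obtain ⟨h1, h2⟩ := hX0 u hu
    unfold nn
    apply Real.sqrt_le_iff.2
    refine ⟨by norm_num, ?_⟩
    show ‖hev X0.1 u‖ ^ 2 + ‖hev X0.2 u‖ ^ 2 ≤ (3 / 2) ^ 2
    have h3 : ‖hev X0.1 u‖ ^ 2 ≤ 1 := pow_le_one₀ (norm_nonneg _) h1
    have h4 : ‖hev X0.2 u‖ ^ 2 ≤ 1 := pow_le_one₀ (norm_nonneg _) h2
    norm_num
    linarith
  have h1 := cau_jet hd hR hw k
  have h2 := hm_le (jv X0 w k) (vv w s)
  have h3 : nn (vv w s) = 1 := by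
    unfold nn
    rw [n2_vv hw, Real.sqrt_one]
  rw [h3, mul_one] at h2
  have h4 : 2 * (3 / 2) * Real.sqrt d ^ k = 3 * Real.sqrt d ^ k := by ring
  linarith

theorem choose_sqrt {d k : ℕ} : Real.sqrt (d.choose k) ≤ Real.sqrt d ^ k := by
  have h1 : (d.choose k : ℝ) ≤ (d : ℝ) ^ k := by exact_mod_cast Nat.choose_le_pow d k
  apply Real.sqrt_le_iff.2
  refine ⟨by positivity, h1.trans (le_of_eq ?_)⟩
  rw [← pow_mul, mul_comm k 2, pow_mul, Real.sq_sqrt (Nat.cast_nonneg d)]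

theorem tl_jet {d k : ℕ} (hk : k ≤ d) {A : ℝ} (hA : 0 ≤ A) (X0 : CV d) {τ : ℝ} (hτ : 0 < τ)
    (hτ1 : τ ≤ 1) (hg : gau A X0 τ Set.univ ≤ 1) {w : ℂ × ℂ} (hw : IsU w) (s : Bool) {r : ℝ}
    (hr : 0 ≤ r) :
    gau A X0 τ {X | r * Real.sqrt d ^ k < ‖hm (jv (X - X0) w k) (vv w s)‖} ≤
      ENNReal.ofReal (4 * Real.exp (-(r ^ 2 / 2))) := by
  obtain ⟨p, hp, hpc⟩ := unit_jet hk hw
  have hC : (0 : ℝ) < d.choose k := by exact_mod_cast Nat.choose_pos hk
  have hsC : 0 < Real.sqrt (d.choose k) := Real.sqrt_pos.2 hC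
  obtain ⟨a, ha⟩ : ∃ a : ℂ × ℂ, a = ((Real.sqrt (d.choose k) : ℝ) : ℂ) • vv w s := ⟨_, rfl⟩
  have hn : n2 a = d.choose k := by
    have h1 : n2 (((Real.sqrt (d.choose k) : ℝ) : ℂ) • vv w s) =
        (Real.sqrt (d.choose k)) ^ 2 * n2 (vv w s) := by
      unfold n2
      simp only [Prod.smul_fst, Prod.smul_snd, smul_eq_mul, norm_mul, Complex.norm_real,
        Real.norm_of_nonneg hsC.le]
      ring
    rw [ha, h1, n2_vv hw, Real.sq_sqrt hC.le, mul_one]
  have he : BN2 (TT p a) = 1 := by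
    rw [tt_bn, hn, hpc]
    field_simp
  have hip : ∀ Y : CV d, ‖ipK Y (TT p a)‖ = ‖hm (jv Y w k) (vv w s)‖ / Real.sqrt (d.choose k) := by
    intro Y
    rw [par hk hw hp]
    have h1 : hm (jv Y w k) a = ((Real.sqrt (d.choose k) : ℝ) : ℂ) * hm (jv Y w k) (vv w s) := by
      rw [ha]
      unfold hm
      simp only [Prod.smul_fst, Prod.smul_snd, smul_eq_mul, map_mul, Complex.conj_ofReal]
      ring
    rw [h1, norm_div, norm_mul, Complex.norm_real, Real.norm_of_nonneg hsC.le, Complex.norm_natCast]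
    have h2 : (d.choose k : ℝ) = Real.sqrt (d.choose k) * Real.sqrt (d.choose k) :=
      (Real.mul_self_sqrt hC.le).symm
    rw [div_eq_div_iff hC.ne' hsC.ne']
    calc Real.sqrt (d.choose k) * ‖hm (jv Y w k) (vv w s)‖ * Real.sqrt (d.choose k)
        = ‖hm (jv Y w k) (vv w s)‖ * (Real.sqrt (d.choose k) * Real.sqrt (d.choose k)) := by ring
      _ = _ := by rw [← h2]
  have hsub : {X : CV d | r * Real.sqrt d ^ k < ‖hm (jv (X - X0) w k) (vv w s)‖} ⊆
      {X | r < ‖ipK (X - X0) (TT p a)‖} := by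
    intro X hX
    have hX' : r * Real.sqrt d ^ k < ‖hm (jv (X - X0) w k) (vv w s)‖ := hX
    show r < ‖ipK (X - X0) (TT p a)‖
    rw [hip, lt_div_iff₀ hsC]
    exact lt_of_le_of_lt (mul_le_mul_of_nonneg_left choose_sqrt hr) hX'
  refine (measure_mono hsub).trans ((gau_tl hA X0 hτ he hr).trans ?_)
  have hexp : Real.exp (-(r ^ 2 / (2 * τ ^ 2))) ≤ Real.exp (-(r ^ 2 / 2)) := by
    apply Real.exp_le_exp.2
    apply neg_le_neg
    apply div_le_div_of_nonneg_left (by positivity) (by positivity)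
    have : τ ^ 2 ≤ 1 := pow_le_one₀ hτ.le hτ1
    linarith
  calc ENNReal.ofReal (4 * Real.exp (-(r ^ 2 / (2 * τ ^ 2)))) * gau A X0 τ Set.univ
      ≤ ENNReal.ofReal (4 * Real.exp (-(r ^ 2 / 2))) * 1 := by
        apply mul_le_mul' _ hg
        apply ENNReal.ofReal_le_ofReal
        linarith
    _ = _ := mul_one _

/-- conditions on the jets at `w` -/
def Ev {d : ℕ} (w : ℂ × ℂ) (c : Bool × ℕ → Set ℂ) : Set (CV d) :=
  {X | ∀ q : Bool × ℕ, hm (jv X w q.2) (vv w q.1) ∈ c q}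

theorem c_hj {d : ℕ} (u w : ℂ × ℂ) (k : ℕ) : Continuous fun X : CV d => hm (jv X u k) w := by
  have h := jv_cont (d := d) u k
  exact (h.fst.mul continuous_const).add (h.snd.mul continuous_const)

theorem ev_closed {d : ℕ} (w : ℂ × ℂ) {c : Bool × ℕ → Set ℂ} (hc : ∀ q, IsClosed (c q)) :
    IsClosed (Ev (d := d) w c) := by
  unfold Ev
  simp only [Set.ofPred_forall]
  exact isClosed_iInter fun q => (hc q).preimage (c_hj w (vv w q.1) q.2)

/-- the bounds of all jets -/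
noncomputable def cB (d : ℕ) (q : Bool × ℕ) : Set ℂ :=
  Metric.closedBall 0 (9 * (2 * Real.sqrt d) ^ q.2)

private theorem geo (n : ℕ) : ∑ k ∈ range n, (1 / 4 : ℝ) ^ k ≤ 4 / 3 := by
  have h : ∑ k ∈ range n, (1 / 4 : ℝ) ^ k = 4 / 3 * (1 - (1 / 4) ^ n) := by
    induction n with
    | zero => simp
    | succ n ih =>
      rw [sum_range_succ, ih]
      ring
  rw [h]
  have : (0 : ℝ) ≤ (1 / 4) ^ n := by positivity
  linarith

theorem typ {d : ℕ} (hd : 1 ≤ d) {A : ℝ} (hA : 0 ≤ A) {X0 : CV d} (hX0 : Ctr X0) {τ : ℝ}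
    (hτ : 0 < τ) (hτ1 : τ ≤ 1) (hg : gau A X0 τ Set.univ = 1) {w : ℂ × ℂ} (hw : IsU w) :
    ENNReal.ofReal (1 / 4) ≤ gau A X0 τ (Ev w (cB d)) := by
  have hs0 : 0 ≤ Real.sqrt d := Real.sqrt_nonneg _
  obtain ⟨U, hU⟩ : ∃ U : Bool → ℕ → Set (CV d), U = fun s k =>
    {X | 6 * 2 ^ k * Real.sqrt d ^ k < ‖hm (jv (X - X0) w k) (vv w s)‖} := ⟨_, rfl⟩
  have hUm : ∀ s k, k ≤ d → gau A X0 τ (U s k) ≤ ENNReal.ofReal (2 / 9 * (1 / 4) ^ k) := by
    intro s k hk
    rw [hU]
    refine (tl_jet hk hA X0 hτ hτ1 hg.le hw s (r := 6 * 2 ^ k) (by positivity)).trans ?_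
    apply ENNReal.ofReal_le_ofReal
    have e1 : (6 * 2 ^ k : ℝ) ^ 2 / 2 = 18 * 4 ^ k := by
      rw [mul_pow, ← pow_mul, mul_comm k 2, pow_mul]
      norm_num
      ring
    rw [e1, Real.exp_neg]
    have h1 : (18 * 4 ^ k : ℝ) ≤ Real.exp (18 * 4 ^ k) := by
      have := Real.add_one_le_exp (18 * 4 ^ k : ℝ)
      linarith
    have h2 : (Real.exp (18 * 4 ^ k : ℝ))⁻¹ ≤ (18 * 4 ^ k : ℝ)⁻¹ :=
      inv_anti₀ (by positivity) h1
    calc 4 * (Real.exp (18 * 4 ^ k : ℝ))⁻¹ ≤ 4 * (18 * 4 ^ k : ℝ)⁻¹ := by linarith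
      _ = 2 / 9 * (1 / 4) ^ k := by
        rw [mul_inv, one_div, inv_pow]
        ring
  have hcomp : (Ev (d := d) w (cB d))ᶜ ⊆ ⋃ k ∈ range (d + 1), (U true k ∪ U false k) := by
    intro X hX
    by_contra hcon
    apply hX
    simp only [Set.mem_iUnion, not_exists] at hcon
    show ∀ q : Bool × ℕ, hm (jv X w q.2) (vv w q.1) ∈ cB d q
    rintro ⟨s, k⟩
    unfold cB
    rw [Metric.mem_closedBall, dist_zero_right]
    simp only
    rcases Nat.lt_or_ge d k with hkd | hkd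
    · have h1 : jv X w k = 0 := by
        unfold jv
        rw [jt_big hkd, jt_big hkd]
        rfl
      rw [h1]
      have h2 : hm (0 : ℂ × ℂ) (vv w s) = 0 := by
        unfold hm
        simp
      rw [h2, norm_zero]
      positivity
    · have h1 := hcon k (mem_range.2 (by omega))
      rw [Set.mem_union, not_or] at h1
      have h2 : ‖hm (jv (X - X0) w k) (vv w s)‖ ≤ 6 * 2 ^ k * Real.sqrt d ^ k := by
        rw [hU] at h1
        cases s
        · exact not_lt.1 h1.2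
        · exact not_lt.1 h1.1
      have h3 := ctr_jet hd hX0 hw s k
      rw [hm_split X X0]
      refine (norm_add_le _ _).trans ?_
      have h4 : (1 : ℝ) ≤ 2 ^ k := one_le_pow₀ one_le_two
      have h5 : 0 ≤ Real.sqrt d ^ k := by positivity
      have h6 : 3 * Real.sqrt d ^ k ≤ 3 * (2 ^ k * Real.sqrt d ^ k) := by
        have := mul_le_mul_of_nonneg_right h4 h5
        linarith
      rw [mul_pow]
      linarith
  have hcm : gau A X0 τ (Ev w (cB d))ᶜ ≤ ENNReal.ofReal (3 / 4) := by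
    refine (measure_mono hcomp).trans ((measure_biUnion_finset_le _ _).trans ?_)
    have h1 : ∀ k ∈ range (d + 1), gau A X0 τ (U true k ∪ U false k) ≤
        ENNReal.ofReal (4 / 9 * (1 / 4) ^ k) := by
      intro k hk
      have hk' : k ≤ d := by
        have := mem_range.1 hk
        omega
      refine (measure_union_le _ _).trans ((add_le_add (hUm true k hk') (hUm false k hk')).trans ?_)
      rw [← ENNReal.ofReal_add (by positivity) (by positivity)]
      apply ENNReal.ofReal_le_ofReal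
      linarith
    refine (sum_le_sum h1).trans ?_
    rw [← ENNReal.ofReal_sum_of_nonneg fun k _ => by positivity]
    apply ENNReal.ofReal_le_ofReal
    rw [← mul_sum]
    have := geo (d + 1)
    linarith
  have hmeas : MeasurableSet (Ev (d := d) w (cB d)) :=
    (ev_closed w fun q => Metric.isClosed_closedBall).measurableSet
  have h1 : (1 : ENNReal) ≤ gau A X0 τ (Ev w (cB d)) + ENNReal.ofReal (3 / 4) := by
    rw [← hg, ← measure_add_measure_compl hmeas]
    gcongr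
  have h2 : ENNReal.ofReal (1 / 4) = 1 - ENNReal.ofReal (3 / 4) := by
    rw [← ENNReal.ofReal_one, ← ENNReal.ofReal_sub _ (by norm_num)]
    norm_num
  rw [h2]
  exact tsub_le_iff_right.2 h1

/-- SIN: the shift of one jet -/
theorem sin_sh {d k : ℕ} (hd : 1 ≤ d) (hk : k ≤ d) {A : ℝ} (hA : 0 ≤ A) {X0 : CV d} (hX0 : Ctr X0)
    {τ : ℝ} (hτ : 0 < τ) {w : ℂ × ℂ} (hw : IsU w) (s : Bool) {c : Bool × ℕ → Set ℂ}
    (hc : ∀ q, IsClosed (c q)) (z0 : ℂ) {M r : ℝ} (hM : 0 ≤ M) (hr : 0 < r)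
    (hcM : ∀ z ∈ c (s, k), ‖z - z0‖ ≤ M) :
    ENNReal.ofReal ((r / (M + r)) ^ 2 * Real.exp (-((2 * (M + r) * (‖z0‖ + M + 3 * Real.sqrt d ^ k) +
        (M + r) ^ 2) / (d.choose k) / τ ^ 2))) * gau A X0 τ (Ev w c) ≤
      gau A X0 τ (Ev w (Function.update c (s, k) (Metric.closedBall z0 r))) := by
  obtain ⟨p, hp, hpc⟩ := unit_jet hk hw
  have hp' := unit_jet' hk hp
  have hC : (0 : ℝ) < d.choose k := by exact_mod_cast Nat.choose_pos hk
  have hval : ∀ (X : CV d) (t : ℂ) (q : Bool × ℕ),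
      hm (jv (X + t • TT p (vv w s)) w q.2) (vv w q.1) =
        hm (jv X w q.2) (vv w q.1) + if q = (s, k) then t else 0 := by
    intro X t q
    rw [tt_jv, hm_add_l, hm_smul_l, hp', hm_vv hw]
    congr 1
    by_cases h1 : q.2 = k
    · by_cases h2 : s = q.1
      · have h3 : q = (s, k) := Prod.ext h2.symm h1
        rw [if_pos h1, if_pos h2, if_pos h3]
        ring
      · have h3 : q ≠ (s, k) := fun h => h2 (by rw [h])
        rw [if_neg h2, if_neg h3, mul_zero]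
    · have h3 : q ≠ (s, k) := fun h => h1 (by rw [h])
      rw [if_neg h1, if_neg h3, mul_zero, zero_mul]
  have hcu : ∀ q, IsClosed (Function.update c (s, k) Set.univ q) := by
    intro q
    by_cases h : q = (s, k)
    · rw [h, Function.update_self]
      exact isClosed_univ
    · rw [Function.update_of_ne h]
      exact hc q
  have h1 := shift_gau hA hτ X0 (TT p (vv w s)) (fun X => hm (jv X w k) (vv w s))
    (c_hj w (vv w s) k).measurable (fun X t => by
      have := hval X t (s, k)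
      rw [if_pos rfl] at this
      exact this) z0 hM hr (B := (‖z0‖ + M + 3 * Real.sqrt d ^ k) / (d.choose k)) (by positivity)
    (Ev w c) (Ev w (Function.update c (s, k) Set.univ)) (ev_closed w hc).measurableSet
    (ev_closed w hcu).measurableSet (fun X hX => hcM _ (hX (s, k))) (fun X hX => by
      rw [par hk hw hp, norm_div, Complex.norm_natCast]
      apply div_le_div_of_nonneg_right _ hC.le
      have h2 := hcM _ (hX (s, k))
      have h3 := ctr_jet hd hX0 hw s k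
      have h4 : hm (jv (X - X0) w k) (vv w s) =
          (hm (jv X w k) (vv w s) - z0) + z0 - hm (jv X0 w k) (vv w s) := by
        rw [hm_split X X0]
        ring
      rw [h4]
      refine (norm_sub_le _ _).trans ?_
      have h5 := norm_add_le (hm (jv X w k) (vv w s) - z0) z0
      have h6 : ‖hm (jv X w k) (vv w s) - z0‖ ≤ M := h2
      linarith) (fun X hX t => by
      show ∀ q : Bool × ℕ, hm (jv (X + t • TT p (vv w s)) w q.2) (vv w q.1) ∈ _
      intro q
      by_cases h : q = (s, k)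
      · rw [h, Function.update_self]
        exact Set.mem_univ _
      · rw [Function.update_of_ne h, hval, if_neg h, add_zero]
        exact hX q)
  have e1 : (2 * (M + r) * ((‖z0‖ + M + 3 * Real.sqrt d ^ k) / (d.choose k)) +
      (M + r) ^ 2 * BN2 (TT p (vv w s))) / τ ^ 2 =
      (2 * (M + r) * (‖z0‖ + M + 3 * Real.sqrt d ^ k) + (M + r) ^ 2) / (d.choose k) / τ ^ 2 := by
    rw [tt_bn, n2_vv hw, hpc]
    field_simp
  rw [e1] at h1
  refine h1.trans (measure_mono ?_)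
  rintro X ⟨hX1, hX2⟩
  show ∀ q : Bool × ℕ, hm (jv X w q.2) (vv w q.1) ∈ _
  intro q
  by_cases h : q = (s, k)
  · rw [h, Function.update_self, Metric.mem_closedBall, dist_eq_norm]
    exact hX2
  · have := hX1 q
    rw [Function.update_of_ne h] at this ⊢
    exact this

end Pool.Agent.H73.LB
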